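import Pool.Agent.H79.Ba.S20

/-!
# `F₃(n, 3)` up to a factor `O(n)`

`F₃(n, 3)` is the integral of the product of the squared mutual distances over `n` points of the
closed unit ball of `ℝ³`.  Put `A n = 2^{n(n+1)} πⁿ (n!)^{1-n} ∏_{k<n} (k!)²`, which is the known
value of `F₂(n, 2)`.  We prove `A n / (n+2)ⁿ ≤ F₃(n, 3) ≤ C n · A n / (n+2)ⁿ`; the new part is the
factor `C n` of the upper bound.

* Lower bound: `|r - r'|² ≥ 4 |z ∧ z'|²` for the spinors `z`, `z'` of `r`, `r'`, and the integral of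
  the squared modulus of the spinor Vandermonde determinant is computed exactly.
* Upper bound: a point `r` of the ball is replaced by its random image on the sphere under the
  Moebius translation by `r` of a uniform point.  The logarithmic potential of this law is explicit,
  which gives `log |r - r'|² ≤ K(r) + K(r') + E log |ω - ω'|²` for all pairs; Jensen's inequality
  then bounds `F₃` by a determinantal integral over the sphere with the radial weight
  `exp ((n-1) K)`, whose total mass is estimated with the correct second order term.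
-/

namespace Pool.Agent.Results.MP_9736d0_an.BallLinearFactor
open MeasureTheory

/-- `Q(r₁, …, r_n) = ∏_{k < j} |r_j - r_k|²` for points of `ℝ³`. -/
noncomputable def Q {n : ℕ} (r : Fin n → EuclideanSpace ℝ (Fin 3)) : ℝ :=
  ∏ k : Fin n, ∏ j ∈ Finset.Ioi k, ‖r j - r k‖ ^ 2

/-- `F₃(n, 3)`, the integral of `Q` over `n` points of the closed unit ball of `ℝ³`. -/
noncomputable def F3 (n : ℕ) : ℝ :=
  ∫ r in {r : Fin n → EuclideanSpace ℝ (Fin 3) | ∀ i, ‖r i‖ ≤ 1}, Q r

/-- `A n = 2^{n(n+1)} πⁿ (n!)^{1-n} ∏_{k<n} (k!)²`, the known value of `F₂(n, 2)`. -/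
noncomputable def A (n : ℕ) : ℝ :=
  2 ^ (n * (n + 1)) * Real.pi ^ n * ((n.factorial : ℝ) / (n.factorial : ℝ) ^ n) *
    ∏ k ∈ Finset.range n, ((k.factorial : ℝ)) ^ 2

/-- For some constant `C` and all `n ≥ 1`: `Q` is integrable on the product of the balls and
`0 < A n / (n+2)ⁿ ≤ F₃(n, 3) ≤ C n · (A n / (n+2)ⁿ)`. -/
theorem result :
    ∃ C : ℝ, ∀ n : ℕ, 1 ≤ n →
      IntegrableOn (fun r : Fin n → EuclideanSpace ℝ (Fin 3) => Q r)
        {r : Fin n → EuclideanSpace ℝ (Fin 3) | ∀ i, ‖r i‖ ≤ 1} ∧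
      0 < A n / ((n : ℝ) + 2) ^ n ∧
      A n / ((n : ℝ) + 2) ^ n ≤ F3 n ∧
      F3 n ≤ C * n * (A n / ((n : ℝ) + 2) ^ n) := by
  refine ⟨Real.exp (2 * 10 ^ 22), fun n hn => ?_⟩
  have hA : Pool.Agent.H79.Ba.Low n = A n / ((n : ℝ) + 2) ^ n := Pool.Agent.H79.Ba.Low_closed hn
  obtain ⟨u1, _⟩ := Pool.Agent.H79.Ba.F3_two_sided hn
  have u2 := Pool.Agent.H79.Ba.F3_upper_sharp hn
  have hLow := Pool.Agent.H79.Ba.Low_pos hn
  rw [hA] at u1 u2 hLow
  exact ⟨Pool.Agent.H79.Ba.Q_integrableOn n, hLow, u1, u2⟩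

end Pool.Agent.Results.MP_9736d0_an.BallLinearFactor
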