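import Pool.Agent.H79.Sq.L9

/-!
# `F₁(n, 3)` up to a factor `exp (O (n log log n))`

`F₁(n, 3)` is the integral over `(ℝ³)ⁿ` of the product of the squared mutual distances against the
Gaussian weight `exp (-∑ |r_i|²)`.  We prove
`log F₁(n, 3) = n²/2 · log n + (1/4 - (log 6)/2) n² + 4/3 · n log n + O(n (1 + log (1 + log n)))`.

* Upper bound: the logarithmic kernel is written as a mixture of Gaussian kernels which is damped at
  high frequencies; a weighted completion of squares against the equilibrium measure (the projection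
  to `ℝ³` of the uniform measure of the 3-sphere) gives a lower bound of the energy of every
  configuration, with self-energy of the optimal order `(n/3) log n`.
* Lower bound: Jensen's inequality for a stratified trial measure (one point in each of `n` cells of
  equal mass and mean diameter `O(n^{-1/3})`), together with the `n!` permutations of the cells.
-/

namespace Pool.Agent.Results.MP_9736d0_an.GaussAsymptotics
open MeasureTheory

/-- `Q(r₁, …, r_n) = ∏_{k < j} |r_j - r_k|²` for points of `ℝ³`. -/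
noncomputable def Q {n : ℕ} (r : Fin n → EuclideanSpace ℝ (Fin 3)) : ℝ :=
  ∏ k : Fin n, ∏ j ∈ Finset.Ioi k, ‖r j - r k‖ ^ 2

/-- `F₁(n, 3) = ∫_{(ℝ³)ⁿ} Q ∏ exp (-|r_i|²) dr_i`. -/
noncomputable def F1 (n : ℕ) : ℝ :=
  ∫ r : Fin n → EuclideanSpace ℝ (Fin 3), Q r * ∏ i, Real.exp (-‖r i‖ ^ 2)

/-- For some constant `C` and all `n ≥ 1`: the integrand of `F₁(n, 3)` is integrable, `F₁(n, 3) > 0`
and `|log F₁(n, 3) - (n²/2 · log n + (1/4 - (log 6)/2) n² + 4/3 · n log n)| ≤ C n (1 + log (1 + log n))`. -/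
theorem result :
    ∃ C : ℝ, ∀ n : ℕ, 1 ≤ n →
      Integrable (fun r : Fin n → EuclideanSpace ℝ (Fin 3) => Q r * ∏ i, Real.exp (-‖r i‖ ^ 2)) ∧
      0 < F1 n ∧
      |Real.log (F1 n) - (1 / 2 * (n : ℝ) ^ 2 * Real.log n + (1 / 4 - Real.log 6 / 2) * (n : ℝ) ^ 2 +
        4 / 3 * n * Real.log n)| ≤ C * n * (1 + Real.log (1 + Real.log n)) := by
  have hF : ∀ n, F1 n = Pool.Agent.H79.Sq.F1 n := by
    intro n
    unfold F1 Pool.Agent.H79.Sq.F1
    congr 1
    funext r
    rw [← Finset.sum_neg_distrib, Real.exp_sum]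
    rfl
  obtain ⟨C1, h1⟩ := Pool.Agent.H79.Sq.lower_final
  obtain ⟨C2, h2⟩ := Pool.Agent.H79.Sq.upper_final
  refine ⟨|C1| + |C2| + 1, fun n hn => ?_⟩
  have hn0 : (0:ℝ) < n := by exact_mod_cast hn
  have hn1 : (1:ℝ) ≤ n := by exact_mod_cast hn
  have hln : 0 ≤ Real.log n := Real.log_nonneg hn1
  have hLL : 0 ≤ Real.log (1 + Real.log n) := Real.log_nonneg (by linarith)
  have l1 := h1 n hn
  have l2 := h2 n hn
  have hpos : 0 < Pool.Agent.H79.Sq.F1 n := lt_of_lt_of_le (Real.exp_pos _) l1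
  refine ⟨?_, by rw [hF]; exact hpos, ?_⟩
  · refine (Pool.Agent.H79.Sq.F1_int n).congr (Filter.Eventually.of_forall fun r => ?_)
    simp only
    rw [← Finset.sum_neg_distrib, Real.exp_sum]
    rfl
  · rw [hF]
    have m1 := (Real.le_log_iff_exp_le hpos).2 l1
    have m2 := (Real.log_le_iff_le_exp hpos).2 l2
    unfold Pool.Agent.H79.Sq.main at m1 m2
    have a1 := le_abs_self C1
    have a2 := le_abs_self C2
    have b1 := abs_nonneg C1
    have b2 := abs_nonneg C2
    have hnL : 0 ≤ (n:ℝ) * Real.log (1 + Real.log n) := by positivity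
    rw [abs_le]
    constructor
    · nlinarith [mul_nonneg b1 hnL, mul_nonneg b2 hnL, mul_nonneg b2 hn0.le, mul_le_mul_of_nonneg_right a1 hn0.le]
    · nlinarith [mul_nonneg b1 hnL, mul_nonneg b2 hnL, mul_nonneg b1 hn0.le, mul_le_mul_of_nonneg_right a2 hn0.le]

end Pool.Agent.Results.MP_9736d0_an.GaussAsymptotics
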